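import Mathlib

/-!
Lower bound for the upper density of a set that contains a periodic family of almost disjoint
bodies of equal volume.
-/

set_option autoImplicit false

open MeasureTheory Metric Set Filter
open scoped ENNReal

namespace Pool.Agent.TH374.Coin

variable {d : ℕ}

/-- the lattice point with integer coordinates `g` in the box lattice with side lengths `L` -/
noncomputable def pt (L : Fin d → ℝ) (g : Fin d → ℤ) : EuclideanSpace ℝ (Fin d) :=
  WithLp.toLp 2 (fun i => (g i : ℝ) * L i)

/-- the half-open box at the lattice point `g` -/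
def box (L : Fin d → ℝ) (g : Fin d → ℤ) : Set (EuclideanSpace ℝ (Fin d)) :=
  {p | ∀ i, p i ∈ Ico ((g i : ℝ) * L i) ((g i : ℝ) * L i + L i)}

theorem volume_box (L : Fin d → ℝ) (g : Fin d → ℤ) :
    volume (box L g) = ∏ i, ENNReal.ofReal (L i) := by
  have h1 : box L g = (MeasurableEquiv.toLp 2 (Fin d → ℝ)).symm ⁻¹'
      (Set.pi univ fun i => Ico ((g i : ℝ) * L i) ((g i : ℝ) * L i + L i)) := by
    ext p
    simp [box, Set.mem_pi]
  rw [h1, (EuclideanSpace.volume_preserving_symm_measurableEquiv_toLp (Fin d)).measure_preimage_equiv]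
  rw [Real.volume_pi_Ico]
  simp

theorem mem_box_floor (L : Fin d → ℝ) (hL : ∀ i, 0 < L i) (p : EuclideanSpace ℝ (Fin d)) :
    p ∈ box L (fun i => ⌊p i / L i⌋) := by
  intro i
  have h := hL i
  have h1 := Int.floor_le (p i / L i)
  have h2 := Int.lt_floor_add_one (p i / L i)
  constructor
  · rw [le_div_iff₀ h] at h1
    exact h1
  · rw [div_lt_iff₀ h] at h2
    linarith

theorem box_subset (L : Fin d → ℝ) (hL : ∀ i, 0 < L i) (g : Fin d → ℤ)
    (p : EuclideanSpace ℝ (Fin d)) (hp : p ∈ box L g) :
    ‖p - pt L g‖ ≤ ‖(WithLp.toLp 2 L : EuclideanSpace ℝ (Fin d))‖ := by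
  rw [EuclideanSpace.norm_eq, EuclideanSpace.norm_eq]
  apply Real.sqrt_le_sqrt
  apply Finset.sum_le_sum
  intro i _
  have h := hp i
  have h0 := hL i
  simp only [pt, PiLp.sub_apply, Real.norm_eq_abs, sq_abs]
  apply pow_le_pow_left₀
  · linarith [h.1]
  · linarith [h.2]

theorem limsup_density_ge (L : Fin d → ℝ) (hL : ∀ i, 0 < L i) {J : Type} [Fintype J]
    (C : (Fin d → ℤ) → J → Set (EuclideanSpace ℝ (Fin d))) (D : ℝ)
    (hD : ∀ g j, C g j ⊆ closedBall (pt L g) D)
    (hmeas : ∀ g j, MeasurableSet (C g j)) (V : ℝ≥0∞) (hV : ∀ g j, volume (C g j) = V)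
    (hdisj : Pairwise (Function.onFun (AEDisjoint volume)
      (fun x : (Fin d → ℤ) × J => C x.1 x.2)))
    (S : Set (EuclideanSpace ℝ (Fin d))) (hS : ∀ g j, C g j ⊆ S) :
    (Fintype.card J : ℝ≥0∞) * V / (∏ i, ENNReal.ofReal (L i)) ≤
      limsup (fun R : ℝ => volume (S ∩ ball (0 : EuclideanSpace ℝ (Fin d)) R) /
        volume (ball (0 : EuclideanSpace ℝ (Fin d)) R)) atTop := by
  classical
  set B : ℝ≥0∞ := ∏ i, ENNReal.ofReal (L i) with hB
  have hB0 : B ≠ 0 := by
    rw [hB]
    refine Finset.prod_ne_zero_iff.mpr fun i _ => ?_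
    have := hL i
    simpa using this
  have hBt : B ≠ ∞ := by
    rw [hB]
    exact ENNReal.prod_ne_top (fun i _ => ENNReal.ofReal_ne_top)
  set D' : ℝ := ‖(WithLp.toLp 2 L : EuclideanSpace ℝ (Fin d))‖ with hD'
  -- key estimate
  have key : ∀ R : ℝ, 0 < R →
      ((Fintype.card J : ℝ≥0∞) * V / B) *
        (volume (ball (0 : EuclideanSpace ℝ (Fin d)) (R - D - D')) /
          volume (ball (0 : EuclideanSpace ℝ (Fin d)) R)) ≤
        volume (S ∩ ball (0 : EuclideanSpace ℝ (Fin d)) R) /
          volume (ball (0 : EuclideanSpace ℝ (Fin d)) R) := by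
    intro R hR
    set G : Set (Fin d → ℤ) := {g | ‖pt L g‖ < R - D} with hG
    set n : ℝ≥0∞ := ∑' _ : G, (1 : ℝ≥0∞) with hn
    have h1 : volume (ball (0 : EuclideanSpace ℝ (Fin d)) (R - D - D')) ≤ n * B := by
      have hsub : ball (0 : EuclideanSpace ℝ (Fin d)) (R - D - D') ⊆ ⋃ g : G, box L g.1 := by
        intro p hp
        rw [mem_ball_zero_iff] at hp
        have hpb := mem_box_floor L hL p
        refine mem_iUnion.mpr ⟨⟨fun i => ⌊p i / L i⌋, ?_⟩, hpb⟩
        have h2 := box_subset L hL _ p hpb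
        have h3 : ‖pt L (fun i => ⌊p i / L i⌋)‖ ≤ ‖p‖ + ‖p - pt L (fun i => ⌊p i / L i⌋)‖ := by
          have := norm_sub_le p (p - pt L (fun i => ⌊p i / L i⌋))
          simpa using this
        simp only [hG, mem_ofPred_eq]
        linarith
      calc volume (ball (0 : EuclideanSpace ℝ (Fin d)) (R - D - D'))
          ≤ volume (⋃ g : G, box L g.1) := measure_mono hsub
        _ ≤ ∑' g : G, volume (box L g.1) := measure_iUnion_le _
        _ = ∑' g : G, 1 * B := by
            congr 1
            ext g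
            rw [volume_box, one_mul]
        _ = n * B := by rw [ENNReal.tsum_mul_right]
    have h2 : n * ((Fintype.card J : ℝ≥0∞) * V) ≤
        volume (S ∩ ball (0 : EuclideanSpace ℝ (Fin d)) R) := by
      have hsub : (⋃ x : G × J, C x.1.1 x.2) ⊆ S ∩ ball (0 : EuclideanSpace ℝ (Fin d)) R := by
        apply iUnion_subset
        rintro ⟨⟨g, hg⟩, j⟩
        apply subset_inter (hS g j)
        intro p hp
        have := hD g j hp
        rw [mem_closedBall, dist_eq_norm] at this
        rw [mem_ball_zero_iff]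
        simp only [hG, mem_ofPred_eq] at hg
        have h4 : ‖p‖ ≤ ‖p - pt L g‖ + ‖pt L g‖ := by
          have := norm_add_le (p - pt L g) (pt L g)
          simpa using this
        linarith
      refine le_trans ?_ (measure_mono hsub)
      rw [measure_iUnion₀]
      · rw [ENNReal.tsum_prod (f := fun (g : G) (j : J) => volume (C g.1 j))]
        apply le_of_eq
        rw [hn, ← ENNReal.tsum_mul_right]
        congr 1
        ext g
        simp [hV]
      · intro x y hxy
        have := @hdisj (x.1.1, x.2) (y.1.1, y.2) (by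
          intro h
          apply hxy
          have h5 : x.1.1 = y.1.1 := (Prod.mk.inj h).1
          have h6 : x.2 = y.2 := (Prod.mk.inj h).2
          exact Prod.ext (Subtype.ext h5) h6)
        exact this
      · intro x
        exact (hmeas _ _).nullMeasurableSet
    calc ((Fintype.card J : ℝ≥0∞) * V / B) *
        (volume (ball (0 : EuclideanSpace ℝ (Fin d)) (R - D - D')) /
          volume (ball (0 : EuclideanSpace ℝ (Fin d)) R))
        ≤ ((Fintype.card J : ℝ≥0∞) * V / B) * ((n * B) /
          volume (ball (0 : EuclideanSpace ℝ (Fin d)) R)) := by gcongr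
      _ = (n * ((Fintype.card J : ℝ≥0∞) * V)) / volume (ball (0 : EuclideanSpace ℝ (Fin d)) R) := by
          rw [div_eq_mul_inv, div_eq_mul_inv, div_eq_mul_inv]
          have : B⁻¹ * B = 1 := ENNReal.inv_mul_cancel hB0 hBt
          calc (Fintype.card J : ℝ≥0∞) * V * B⁻¹ * (n * B * (volume (ball (0 : EuclideanSpace ℝ (Fin d)) R))⁻¹)
              = (n * ((Fintype.card J : ℝ≥0∞) * V)) * (volume (ball (0 : EuclideanSpace ℝ (Fin d)) R))⁻¹ * (B⁻¹ * B) := by ring
            _ = _ := by rw [this, mul_one]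
      _ ≤ _ := by gcongr
  -- the limit of the ratio of volumes of balls
  have hlim : Tendsto (fun R : ℝ => volume (ball (0 : EuclideanSpace ℝ (Fin d)) (R - D - D')) /
          volume (ball (0 : EuclideanSpace ℝ (Fin d)) R)) atTop (nhds 1) := by
    have hr : Tendsto (fun R : ℝ => ENNReal.ofReal (((R - D - D') / R) ^ d)) atTop (nhds 1) := by
      have h0 : Tendsto (fun R : ℝ => ((R - D - D') / R) ^ d) atTop (nhds 1) := by
        have h3 : Tendsto (fun R : ℝ => (R - D - D') / R) atTop (nhds 1) := by
          have h4 : Tendsto (fun R : ℝ => 1 - (D + D') / R) atTop (nhds (1 - 0)) :=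
            tendsto_const_nhds.sub (tendsto_const_nhds.div_atTop tendsto_id)
          rw [sub_zero] at h4
          refine h4.congr' ?_
          filter_upwards [eventually_gt_atTop (0 : ℝ)] with R hR
          field_simp
          ring
        simpa using h3.pow d
      simpa using ENNReal.tendsto_ofReal h0
    refine hr.congr' ?_
    filter_upwards [eventually_gt_atTop (0 : ℝ), eventually_gt_atTop (D + D')] with R hR hR2
    rw [Measure.addHaar_ball_of_pos _ _ (by linarith : 0 < R - D - D'), Measure.addHaar_ball_of_pos _ _ hR]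
    have hu0 : volume (ball (0 : EuclideanSpace ℝ (Fin d)) 1) ≠ 0 :=
      (measure_ball_pos _ _ one_pos).ne'
    have hut : volume (ball (0 : EuclideanSpace ℝ (Fin d)) 1) ≠ ∞ := measure_ball_lt_top.ne
    rw [ENNReal.mul_div_mul_right _ _ hu0 hut, finrank_euclideanSpace, Fintype.card_fin, div_pow,
      ENNReal.ofReal_div_of_pos (by positivity)]
  have hlim2 := ENNReal.Tendsto.const_mul (a := (Fintype.card J : ℝ≥0∞) * V / B) hlim
    (Or.inl one_ne_zero)
  rw [mul_one] at hlim2
  calc (Fintype.card J : ℝ≥0∞) * V / B = liminf (fun R : ℝ => ((Fintype.card J : ℝ≥0∞) * V / B) *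
        (volume (ball (0 : EuclideanSpace ℝ (Fin d)) (R - D - D')) /
          volume (ball (0 : EuclideanSpace ℝ (Fin d)) R))) atTop := hlim2.liminf_eq.symm
    _ ≤ liminf (fun R : ℝ => volume (S ∩ ball (0 : EuclideanSpace ℝ (Fin d)) R) /
        volume (ball (0 : EuclideanSpace ℝ (Fin d)) R)) atTop := by
        apply liminf_le_liminf
        · filter_upwards [eventually_gt_atTop (0 : ℝ)] with R hR
          exact key R hR
        all_goals isBoundedDefault
    _ ≤ _ := liminf_le_limsup

end Pool.Agent.TH374.Coin
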