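import Pool.Agent.TH374.Coin.Arr
import Pool.Agent.TH374.Coin.Density

/-!
The density of the arrangement of thin coins.
-/

set_option autoImplicit false

open MeasureTheory Metric Set Filter
open scoped ENNReal

namespace Pool.Agent.TH374.Coin

/-- local labels of the coins of one period -/
abbrev JJ : Type :=
  (Fin 20000000 × Fin 999) ⊕ (Fin 19980000000) ⊕ (Fin 19960000 × Fin 999) ⊕
    (Fin 40000 × Fin 1000) ⊕ (Fin 19980000000)

/-- the label of a coin -/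
def lab (g : Fin 3 → ℤ) : JJ → Fin 4 × ℤ × ℤ × ℤ
  | .inl x => (0, g 2, 20000000 * g 1 + (x.1 : ℕ), 999 * g 0 + (x.2 : ℕ))
  | .inr (.inl x) => (1, g 2, 19980000000 * g 0 + (x : ℕ), g 1)
  | .inr (.inr (.inl x)) => (2, g 2, 20000000 * g 1 + 40000 + (x.1 : ℕ), 999 * g 0 + (x.2 : ℕ))
  | .inr (.inr (.inr (.inl x))) => (2, g 2, 20000000 * g 1 + (x.1 : ℕ), 1000 * g 0 + (x.2 : ℕ))
  | .inr (.inr (.inr (.inr x))) => (3, g 2, 19980000000 * g 0 + (x : ℕ), g 1)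

theorem ext3 (g g' : Fin 3 → ℤ) (h0 : g 0 = g' 0) (h1 : g 1 = g' 1) (h2 : g 2 = g' 2) : g = g' := by
  funext i
  fin_cases i
  · exact h0
  · exact h1
  · exact h2

theorem lab_inj (g g' : Fin 3 → ℤ) (j j' : JJ) (h : lab g j = lab g' j') : (g, j) = (g', j') := by
  rcases j with ⟨a, b⟩ | a | ⟨a, b⟩ | ⟨a, b⟩ | a <;>
  rcases j' with ⟨a', b'⟩ | a' | ⟨a', b'⟩ | ⟨a', b'⟩ | a' <;>
  simp only [lab, Prod.mk.injEq] at h <;>
  obtain ⟨h0, h1, h2, h3⟩ := h <;>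
  first
  | (exfalso; revert h0; decide)
  | (have e1 := a.2
     have e2 := a'.2
     have e3 := b.2
     have e4 := b'.2
     have g0 : g 0 = g' 0 := by omega
     have g1 : g 1 = g' 1 := by omega
     have ea : a = a' := Fin.ext (by omega)
     have eb : b = b' := Fin.ext (by omega)
     rw [ext3 g g' g0 g1 h1, ea, eb])
  | (exfalso
     have e1 := a.2
     have e2 := a'.2
     have e3 := b.2
     have e4 := b'.2
     omega)
  | (have e1 := a.2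
     have e2 := a'.2
     have g0 : g 0 = g' 0 := by omega
     have g1 : g 1 = g' 1 := by omega
     have ea : a = a' := Fin.ext (by omega)
     rw [ext3 g g' g0 g1 h1, ea])

/-- the side lengths of the period box -/
noncomputable def LL : Fin 3 → ℝ := ![1998, 2, 4 * kap]

noncomputable def CC (g : Fin 3 → ℤ) (j : JJ) : Set E3 :=
  coin (lab g j).1 (lab g j).2.1 (lab g j).2.2.1 (lab g j).2.2.2

theorem CC_disj : Pairwise (Function.onFun (AEDisjoint volume)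
    (fun x : (Fin 3 → ℤ) × JJ => CC x.1 x.2)) := by
  have cv : ∀ t k m i, Convex ℝ (coin t k m i) := by
    intro t k m i
    fin_cases t
    · exact convex_coinY _ _ _ _
    · exact convex_coinX _ _ _ _
    · exact convex_coinY _ _ _ _
    · exact convex_coinX _ _ _ _
  have cl : ∀ t k m i, IsClosed (coin t k m i) := by
    intro t k m i
    fin_cases t
    · exact isClosed_coinY _ _ _ _
    · exact isClosed_coinX _ _ _ _
    · exact isClosed_coinY _ _ _ _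
    · exact isClosed_coinX _ _ _ _
  rintro ⟨g, j⟩ ⟨g', j'⟩ hne
  apply aedisjoint_of (cv _ _ _ _) (cv _ _ _ _) (cl _ _ _ _) (cl _ _ _ _)
  apply coin_disj
  rintro ⟨h1, h2, h3, h4⟩
  apply hne
  apply lab_inj
  exact Prod.ext h1 (Prod.ext h2 (Prod.ext h3 h4))

theorem CC_closed (g : Fin 3 → ℤ) (j : JJ) : IsClosed (CC g j) := by
  unfold CC
  generalize (lab g j).1 = t
  fin_cases t
  · exact isClosed_coinY _ _ _ _
  · exact isClosed_coinX _ _ _ _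
  · exact isClosed_coinY _ _ _ _
  · exact isClosed_coinX _ _ _ _

theorem CC_volume (g : Fin 3 → ℤ) (j : JJ) : volume (CC g j) = volume (cyl hh) := by
  unfold CC
  generalize (lab g j).1 = t
  fin_cases t
  · exact volume_coinY _ _ _ _
  · exact volume_coinX _ _ _ _
  · exact volume_coinY _ _ _ _
  · exact volume_coinX _ _ _ _

theorem norm_le_of (v : E3) (D : ℝ) (hD : 0 ≤ D) (h : (v 0) ^ 2 + (v 1) ^ 2 + (v 2) ^ 2 ≤ D ^ 2) :
    ‖v‖ ≤ D := by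
  rw [EuclideanSpace.norm_eq, Real.sqrt_le_left hD]
  simp only [Real.norm_eq_abs, sq_abs, Fin.sum_univ_three]
  exact h

theorem abs_sub_of_sq (x a : ℝ) (r : ℝ) (h : (x - a) ^ 2 + r ^ 2 ≤ 1) : a - 1 ≤ x ∧ x ≤ a + 1 := by
  have h1 : (x - a) ^ 2 ≤ 1 := by nlinarith [sq_nonneg r]
  have h2 := abs_le_of_sq_le_sq' (by simpa using h1 : (x - a) ^ 2 ≤ 1 ^ 2) (by norm_num)
  constructor <;> linarith [h2.1, h2.2]

/-- position of a coin of the first kind -/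
theorem loc_coinY (y0 h a c : ℝ) (p : E3) (hp : p ∈ coinY y0 h a c) :
    (a - 1 ≤ p 0 ∧ p 0 ≤ a + 1) ∧ (y0 ≤ p 1 ∧ p 1 ≤ y0 + h) ∧ (c - 1 ≤ p 2 ∧ p 2 ≤ c + 1) := by
  obtain ⟨h1, h2, h3⟩ := hp
  exact ⟨abs_sub_of_sq _ _ _ h1, ⟨h2, h3⟩, abs_sub_of_sq _ _ (p 0 - a) (by linarith)⟩

theorem loc_coinX (y0 h a c : ℝ) (p : E3) (hp : p ∈ coinX y0 h a c) :
    (a - 1 ≤ p 1 ∧ p 1 ≤ a + 1) ∧ (y0 ≤ p 0 ∧ p 0 ≤ y0 + h) ∧ (c - 1 ≤ p 2 ∧ p 2 ≤ c + 1) := by
  obtain ⟨h1, h2, h3⟩ := hp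
  exact ⟨abs_sub_of_sq _ _ _ h1, ⟨h2, h3⟩, abs_sub_of_sq _ _ (p 1 - a) (by linarith)⟩

theorem bz_bd (m i : ℤ) : 0 ≤ bz m i ∧ bz m i ≤ 3 * kap := by
  obtain ⟨U, hU0, hU1, hU, h5, h6⟩ := third m i 0
  have := A_nonneg 0
  have := A_nonneg m
  have := B_nonneg m
  constructor <;> linarith

theorem CC_loc (g : Fin 3 → ℤ) (j : JJ) : CC g j ⊆ closedBall (pt LL g) 3000 := by
  intro p hp
  rw [mem_closedBall, dist_eq_norm]
  have k0 := kap_ge
  have k1 : kap ≤ 2 := by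
    have := kap_sq
    have := kap_nonneg
    nlinarith
  have key : (-10 ≤ p 0 - 1998 * g 0 ∧ p 0 - 1998 * g 0 ≤ 2100) ∧
      (-10 ≤ p 1 - 2 * g 1 ∧ p 1 - 2 * g 1 ≤ 10) ∧
      (-10 ≤ p 2 - 4 * kap * g 2 ∧ p 2 - 4 * kap * g 2 ≤ 10) := by
    rcases j with ⟨a, b⟩ | a | ⟨a, b⟩ | ⟨a, b⟩ | a
    · have ha : ((a : ℕ) : ℝ) ≤ 20000000 := by exact_mod_cast a.2.le
      have ha0 : (0 : ℝ) ≤ ((a : ℕ) : ℝ) := by positivity
      have hb : ((b : ℕ) : ℝ) ≤ 999 := by exact_mod_cast b.2.le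
      have hb0 : (0 : ℝ) ≤ ((b : ℕ) : ℝ) := by positivity
      obtain ⟨⟨x1, x2⟩, ⟨y1, y2⟩, z1, z2⟩ := loc_coinY _ _ _ _ p hp
      simp only [lab] at x1 x2 y1 y2 z1 z2
      push_cast at x1 x2 y1 y2 z1 z2
      unfold hh at y2
      have a1 := A_le (20000000 * g 1 + (a : ℕ))
      have a2 := A_nonneg (20000000 * g 1 + (a : ℕ))
      refine ⟨⟨?_, ?_⟩, ⟨?_, ?_⟩, ?_, ?_⟩ <;> linarith
    · have ha : ((a : ℕ) : ℝ) ≤ 19980000000 := by exact_mod_cast a.2.le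
      have ha0 : (0 : ℝ) ≤ ((a : ℕ) : ℝ) := by positivity
      obtain ⟨⟨x1, x2⟩, ⟨y1, y2⟩, z1, z2⟩ := loc_coinX _ _ _ _ p hp
      simp only [lab] at x1 x2 y1 y2 z1 z2
      push_cast at x1 x2 y1 y2 z1 z2
      unfold hh at y2
      have a1 := A_le (19980000000 * g 0 + (a : ℕ))
      have a2 := A_nonneg (19980000000 * g 0 + (a : ℕ))
      refine ⟨⟨?_, ?_⟩, ⟨?_, ?_⟩, ?_, ?_⟩ <;> linarith
    · have ha : ((a : ℕ) : ℝ) ≤ 19960000 := by exact_mod_cast a.2.le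
      have ha0 : (0 : ℝ) ≤ ((a : ℕ) : ℝ) := by positivity
      have hb : ((b : ℕ) : ℝ) ≤ 999 := by exact_mod_cast b.2.le
      have hb0 : (0 : ℝ) ≤ ((b : ℕ) : ℝ) := by positivity
      obtain ⟨⟨x1, x2⟩, ⟨y1, y2⟩, z1, z2⟩ := loc_coinY _ _ _ _ p hp
      simp only [lab] at x1 x2 y1 y2 z1 z2
      have hs : ¬ spec (20000000 * g 1 + 40000 + (a : ℕ)) := by
        unfold spec
        have := a.2
        omega
      obtain ⟨b1, b2⟩ := bz_bd (20000000 * g 1 + 40000 + (a : ℕ)) (999 * g 0 + (b : ℕ))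
      unfold bx at x1 x2
      rw [if_neg hs] at x1 x2
      push_cast at x1 x2 y1 y2 z1 z2
      unfold hh at y2
      refine ⟨⟨?_, ?_⟩, ⟨?_, ?_⟩, ?_, ?_⟩ <;> linarith
    · have ha : ((a : ℕ) : ℝ) ≤ 40000 := by exact_mod_cast a.2.le
      have ha0 : (0 : ℝ) ≤ ((a : ℕ) : ℝ) := by positivity
      have hb : ((b : ℕ) : ℝ) ≤ 1000 := by exact_mod_cast b.2.le
      have hb0 : (0 : ℝ) ≤ ((b : ℕ) : ℝ) := by positivity
      obtain ⟨⟨x1, x2⟩, ⟨y1, y2⟩, z1, z2⟩ := loc_coinY _ _ _ _ p hp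
      simp only [lab] at x1 x2 y1 y2 z1 z2
      have hs : spec (20000000 * g 1 + (a : ℕ)) := by
        unfold spec
        have := a.2
        omega
      obtain ⟨b1, b2⟩ := bz_bd (20000000 * g 1 + (a : ℕ)) (1000 * g 0 + (b : ℕ))
      unfold bx at x1 x2
      rw [if_pos hs] at x1 x2
      push_cast at x1 x2 y1 y2 z1 z2
      unfold hh at y2
      refine ⟨⟨?_, ?_⟩, ⟨?_, ?_⟩, ?_, ?_⟩ <;> linarith
    · have ha : ((a : ℕ) : ℝ) ≤ 19980000000 := by exact_mod_cast a.2.le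
      have ha0 : (0 : ℝ) ≤ ((a : ℕ) : ℝ) := by positivity
      obtain ⟨⟨x1, x2⟩, ⟨y1, y2⟩, z1, z2⟩ := loc_coinX _ _ _ _ p hp
      simp only [lab] at x1 x2 y1 y2 z1 z2
      push_cast at x1 x2 y1 y2 z1 z2
      unfold hh at y2
      have a1 := A_le (19980000000 * g 0 + (a : ℕ))
      have a2 := A_nonneg (19980000000 * g 0 + (a : ℕ))
      refine ⟨⟨?_, ?_⟩, ⟨?_, ?_⟩, ?_, ?_⟩ <;> linarith
  obtain ⟨⟨x1, x2⟩, ⟨y1, y2⟩, z1, z2⟩ := key
  apply norm_le_of _ _ (by norm_num)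
  have c0 : (p - pt LL g) 0 = p 0 - 1998 * g 0 := by
    simp [pt, LL, mul_comm]
  have c1 : (p - pt LL g) 1 = p 1 - 2 * g 1 := by
    simp [pt, LL, mul_comm]
  have c2 : (p - pt LL g) 2 = p 2 - 4 * kap * g 2 := by
    simp [pt, LL, mul_comm]
  rw [c0, c1, c2]
  nlinarith

/-- the arrangement -/
def PP : Set (Set E3) := {A | ∃ t k m i, A = coin t k m i}

theorem PP_iso (S : Set E3) (hS : S ∈ PP) : ∃ f : E3 ≃ᵢ E3, S = f '' cyl hh := by
  obtain ⟨t, k, m, i, rfl⟩ := hS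
  fin_cases t
  · exact coinY_iso _ _ _ _
  · exact coinX_iso _ _ _ _
  · exact coinY_iso _ _ _ _
  · exact coinX_iso _ _ _ _

theorem PP_disj (S T : Set E3) (hS : S ∈ PP) (hT : T ∈ PP) (h : S ≠ T) :
    Disjoint (interior S) (interior T) := by
  obtain ⟨t, k, m, i, rfl⟩ := hS
  obtain ⟨t', k', m', i', rfl⟩ := hT
  apply coin_disj
  rintro ⟨rfl, rfl, rfl, rfl⟩
  exact h rfl

theorem card_JJ : Fintype.card JJ = 79920040000 := by
  simp [JJ]

theorem dens : ENNReal.ofReal (Real.pi / Real.sqrt 12) <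
    limsup (fun R : ℝ => volume (⋃₀ PP ∩ ball (0 : E3) R) / volume (ball (0 : E3) R)) atTop := by
  have k0 := kap_ge
  have hLL : ∀ i, 0 < LL i := by
    intro i
    fin_cases i
    · simp [LL]
    · simp [LL]
    · simp [LL]; linarith
  have h := limsup_density_ge LL hLL CC 3000 CC_loc (fun g j => (CC_closed g j).measurableSet)
    (volume (cyl hh)) CC_volume CC_disj (⋃₀ PP) (fun g j => subset_sUnion_of_mem ⟨_, _, _, _, rfl⟩)
  refine lt_of_lt_of_le ?_ h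
  rw [card_JJ, volume_cyl, Fin.prod_univ_three]
  have e0 : LL 0 = 1998 := rfl
  have e1 : LL 1 = 2 := rfl
  have e2 : LL 2 = 4 * kap := rfl
  have e3 : ((79920040000 : ℕ) : ℝ≥0∞) = ENNReal.ofReal 79920040000 := by
    rw [← ENNReal.ofReal_natCast]
    norm_num
  have hh0 : 0 ≤ hh := by unfold hh; norm_num
  have hhp : 0 < hh := by unfold hh; norm_num
  have e4 : ENNReal.ofReal hh * ENNReal.ofReal Real.pi = ENNReal.ofReal (hh * Real.pi) :=
    (ENNReal.ofReal_mul hh0).symm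
  have e5 : ENNReal.ofReal 1998 * ENNReal.ofReal 2 * ENNReal.ofReal (4 * kap) =
      ENNReal.ofReal (1998 * 2 * (4 * kap)) := by
    rw [← ENNReal.ofReal_mul (by norm_num : (0:ℝ) ≤ 1998),
      ← ENNReal.ofReal_mul (by norm_num : (0:ℝ) ≤ 1998 * 2)]
  rw [e0, e1, e2, e3, e4, e5, ← ENNReal.ofReal_mul (by norm_num),
    ← ENNReal.ofReal_div_of_pos (by positivity)]
  rw [ENNReal.ofReal_lt_ofReal_iff (by positivity)]
  have hpi := Real.pi_pos
  have h12 : 0 < Real.sqrt 12 := by positivity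
  have hs : Real.sqrt 12 ^ 2 = 12 := Real.sq_sqrt (by norm_num)
  rw [div_lt_div_iff₀ h12 (by positivity)]
  unfold hh
  have hk := kap_sq
  have hmain : 2000 * kap < 1000.0005 * Real.sqrt 12 := by
    by_contra hcon
    push Not at hcon
    have h5 : (1000.0005 * Real.sqrt 12) ^ 2 ≤ (2000 * kap) ^ 2 :=
      pow_le_pow_left₀ (by positivity) hcon 2
    rw [mul_pow, mul_pow, hs, hk] at h5
    norm_num at h5
  nlinarith

end Pool.Agent.TH374.Coin
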