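import Pool.Agent.TH374.Coin.Disj

/-!
The arrangement of thin coins.  Thickness is `10^(-7)`.
-/

set_option autoImplicit false

open MeasureTheory Metric Set Filter
open scoped ENNReal

namespace Pool.Agent.TH374.Coin

/-- thickness -/
noncomputable def hh : ℝ := 1 / 10000000

/-- distance (in cells) of the cell `n` from the nearest even integer -/
def dd (n : ℤ) : ℤ := min (n % 20000000) (19999999 - n % 20000000)

noncomputable def A (n : ℤ) : ℝ := √(1 - ((dd n : ℝ) / 10000000) ^ 2)

noncomputable def B (n : ℤ) : ℝ := √(1 - (((9999999 - dd n : ℤ) : ℝ) / 10000000) ^ 2)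

noncomputable def kap : ℝ := √(4 - (1 - 1 / 10000000) ^ 2)

theorem dd_nonneg (n : ℤ) : 0 ≤ dd n := by
  unfold dd
  omega

theorem dd_le (n : ℤ) : dd n ≤ 9999999 := by
  unfold dd
  omega

theorem frac_sq_le (k : ℤ) (h0 : 0 ≤ k) (h1 : k ≤ 9999999) : ((k : ℝ) / 10000000) ^ 2 ≤ 1 := by
  have e0 : (0 : ℝ) ≤ k := by exact_mod_cast h0
  have e1 : (k : ℝ) ≤ 9999999 := by exact_mod_cast h1
  have e2 : (k : ℝ) / 10000000 ≤ 1 := by
    rw [div_le_one (by norm_num)]; linarith
  have e3 : 0 ≤ (k : ℝ) / 10000000 := by positivity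
  nlinarith

theorem A_sq (n : ℤ) : (A n) ^ 2 = 1 - ((dd n : ℝ) / 10000000) ^ 2 := by
  unfold A
  rw [Real.sq_sqrt]
  have := frac_sq_le _ (dd_nonneg n) (dd_le n)
  linarith

theorem B_sq (n : ℤ) : (B n) ^ 2 = 1 - (((9999999 - dd n : ℤ) : ℝ) / 10000000) ^ 2 := by
  unfold B
  rw [Real.sq_sqrt]
  have := frac_sq_le (9999999 - dd n) (by have := dd_le n; omega) (by have := dd_nonneg n; omega)
  linarith

theorem A_nonneg (n : ℤ) : 0 ≤ A n := Real.sqrt_nonneg _

theorem B_nonneg (n : ℤ) : 0 ≤ B n := Real.sqrt_nonneg _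

theorem A_le (n : ℤ) : A n ≤ 1 := by
  have h := A_sq n
  have h0 := A_nonneg n
  have : 0 ≤ ((dd n : ℝ) / 10000000) ^ 2 := sq_nonneg _
  nlinarith

theorem B_le (n : ℤ) : B n ≤ 1 := by
  have h := B_sq n
  have h0 := B_nonneg n
  have : 0 ≤ (((9999999 - dd n : ℤ) : ℝ) / 10000000) ^ 2 := sq_nonneg _
  nlinarith

theorem kap_sq : kap ^ 2 = 4 - (1 - 1 / 10000000) ^ 2 := by
  unfold kap
  rw [Real.sq_sqrt]
  norm_num

theorem kap_nonneg : 0 ≤ kap := Real.sqrt_nonneg _

theorem kap_ge : 1.73205 ≤ kap := by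
  have h := kap_sq
  have h0 := kap_nonneg
  nlinarith

theorem kap_sq_ge : 3 ≤ kap ^ 2 := by
  rw [kap_sq]; norm_num

theorem AB_le (n : ℤ) : A n + B n ≤ kap := by
  have h1 := A_sq n
  have h2 := B_sq n
  have h3 := kap_sq
  have a0 := A_nonneg n
  have b0 := B_nonneg n
  have k0 := kap_nonneg
  set u : ℝ := (dd n : ℝ) / 10000000 with hu
  set v : ℝ := ((9999999 - dd n : ℤ) : ℝ) / 10000000 with hv
  have huv : u + v = 1 - 1 / 10000000 := by
    rw [hu, hv]; push_cast; ring
  have h4 : (A n + B n) ^ 2 ≤ kap ^ 2 := by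
    rw [h3, ← huv]
    nlinarith [sq_nonneg (A n - B n), sq_nonneg (u - v)]
  exact abs_le_of_sq_le_sq' h4 k0 |>.2

/-- the cell `n` keeps its distance from the even integers -/
theorem cellA (n i : ℤ) (x : ℝ) (h1 : (n : ℝ) / 10000000 ≤ x) (h2 : x ≤ (n : ℝ) / 10000000 + hh) :
    1 - (x - 2 * i) ^ 2 ≤ (A n) ^ 2 := by
  rw [A_sq]
  have hd0 := dd_nonneg n
  have hd1 : (0 : ℝ) ≤ dd n := by exact_mod_cast hd0
  have hx1 : (n : ℝ) ≤ 10000000 * x := by
    rw [div_le_iff₀ (by norm_num)] at h1; linarith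
  have hx2 : 10000000 * x ≤ n + 1 := by
    unfold hh at h2
    have : (n : ℝ) / 10000000 + 1 / 10000000 = (n + 1) / 10000000 := by ring
    rw [this, le_div_iff₀ (by norm_num)] at h2; linarith
  have key : dd n ≤ n - 20000000 * i ∨ n + 1 - 20000000 * i ≤ - dd n := by
    unfold dd
    omega
  have h3 : (dd n : ℝ) / 10000000 ≤ |x - 2 * i| := by
    rw [div_le_iff₀ (by norm_num)]
    rcases key with key | key
    · have key' : (dd n : ℝ) ≤ n - 20000000 * i := by exact_mod_cast key
      have := le_abs_self (x - 2 * i)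
      nlinarith
    · have key' : (n : ℝ) + 1 - 20000000 * i ≤ - dd n := by exact_mod_cast key
      have := neg_le_abs (x - 2 * i)
      nlinarith
  have h4 : ((dd n : ℝ) / 10000000) ^ 2 ≤ (x - 2 * i) ^ 2 := by
    rw [← sq_abs (x - 2 * i)]
    exact pow_le_pow_left₀ (by positivity) h3 2
  linarith

/-- the cell `n` keeps its distance from the odd integers -/
theorem cellB (n i : ℤ) (x : ℝ) (h1 : (n : ℝ) / 10000000 ≤ x) (h2 : x ≤ (n : ℝ) / 10000000 + hh) :
    1 - (x - (2 * i + 1)) ^ 2 ≤ (B n) ^ 2 := by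
  rw [B_sq]
  have hd0 := dd_le n
  have hd1 : (0 : ℝ) ≤ ((9999999 - dd n : ℤ) : ℝ) := by
    have : 0 ≤ 9999999 - dd n := by omega
    exact_mod_cast this
  have hx1 : (n : ℝ) ≤ 10000000 * x := by
    rw [div_le_iff₀ (by norm_num)] at h1; linarith
  have hx2 : 10000000 * x ≤ n + 1 := by
    unfold hh at h2
    have : (n : ℝ) / 10000000 + 1 / 10000000 = (n + 1) / 10000000 := by ring
    rw [this, le_div_iff₀ (by norm_num)] at h2; linarith
  have key : 9999999 - dd n ≤ n - 20000000 * i - 10000000 ∨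
      n + 1 - 20000000 * i - 10000000 ≤ - (9999999 - dd n) := by
    unfold dd
    omega
  have h3 : ((9999999 - dd n : ℤ) : ℝ) / 10000000 ≤ |x - (2 * i + 1)| := by
    rw [div_le_iff₀ (by norm_num)]
    rcases key with key | key
    · have key' : ((9999999 - dd n : ℤ) : ℝ) ≤ n - 20000000 * i - 10000000 := by exact_mod_cast key
      have := le_abs_self (x - (2 * i + 1))
      nlinarith
    · have key' : (n : ℝ) + 1 - 20000000 * i - 10000000 ≤ - ((9999999 - dd n : ℤ) : ℝ) := by
        exact_mod_cast key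
      have := neg_le_abs (x - (2 * i + 1))
      nlinarith
  have h4 : (((9999999 - dd n : ℤ) : ℝ) / 10000000) ^ 2 ≤ (x - (2 * i + 1)) ^ 2 := by
    rw [← sq_abs (x - (2 * i + 1))]
    exact pow_le_pow_left₀ (by positivity) h3 2
  linarith

/-- the special cells -/
def spec (m : ℤ) : Prop := m % 20000000 < 40000

instance (m : ℤ) : Decidable (spec m) := by unfold spec; infer_instance

theorem B_spec (m : ℤ) (hm : spec m) : B m ≤ 0.09 := by
  have h := B_sq m
  have h0 := B_nonneg m
  have hd : 9960000 ≤ 9999999 - dd m := by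
    unfold spec at hm
    unfold dd
    omega
  have hd' : (9960000 : ℝ) ≤ ((9999999 - dd m : ℤ) : ℝ) := by exact_mod_cast hd
  have h1 : (0.996 : ℝ) ≤ ((9999999 - dd m : ℤ) : ℝ) / 10000000 := by
    rw [le_div_iff₀ (by norm_num)]
    linarith
  have h2 : (0.996 : ℝ) ^ 2 ≤ (((9999999 - dd m : ℤ) : ℝ) / 10000000) ^ 2 :=
    pow_le_pow_left₀ (by norm_num) h1 2
  nlinarith

/-- first coordinate of the centres in the third layer -/
noncomputable def bx (m i : ℤ) : ℝ := if spec m then 1.998 * i else 2 * i + 1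

/-- height of the centres in the third layer -/
noncomputable def bz (m i : ℤ) : ℝ :=
  if spec m then 2 + A m + (if Even i then 0 else 0.1) else kap + A m

theorem third (m i n : ℤ) : ∃ U : ℝ, 0 ≤ U ∧ U ≤ 1 ∧
    (∀ x, (n : ℝ) / 10000000 ≤ x → x ≤ (n : ℝ) / 10000000 + hh → 1 - (x - bx m i) ^ 2 ≤ U ^ 2) ∧
    A n + U + A m ≤ bz m i ∧ bz m i + U + A n + B m ≤ 3 * kap := by
  by_cases hm : spec m
  · refine ⟨1, by norm_num, le_refl _, ?_, ?_, ?_⟩
    · intro x _ _
      nlinarith [sq_nonneg (x - bx m i)]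
    · unfold bz
      rw [if_pos hm]
      have := A_le n
      split_ifs <;> linarith
    · unfold bz
      rw [if_pos hm]
      have := A_le n
      have := A_le m
      have := B_spec m hm
      have := kap_ge
      split_ifs <;> linarith
  · refine ⟨B n, B_nonneg n, B_le n, ?_, ?_, ?_⟩
    · intro x h1 h2
      unfold bx
      rw [if_neg hm]
      exact cellB n i x h1 h2
    · unfold bz
      rw [if_neg hm]
      have := AB_le n
      linarith
    · unfold bz
      rw [if_neg hm]
      have := AB_le n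
      have := AB_le m
      linarith

/-- the coins: layer, period, cell, number -/
noncomputable def coin : Fin 4 → ℤ → ℤ → ℤ → Set E3
  | 0, k, m, i => coinY ((m : ℝ) / 10000000) hh (2 * i) (4 * kap * k - A m)
  | 1, k, n, j => coinX ((n : ℝ) / 10000000) hh (2 * j) (4 * kap * k + A n)
  | 2, k, m, i => coinY ((m : ℝ) / 10000000) hh (bx m i) (4 * kap * k + bz m i)
  | 3, k, n, j => coinX ((n : ℝ) / 10000000) hh (2 * j + 1) (4 * kap * k + 3 * kap - A n)

theorem cell_sep (m m' : ℤ) (h : m ≠ m') : (m : ℝ) / 10000000 + hh ≤ (m' : ℝ) / 10000000 ∨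
    (m' : ℝ) / 10000000 + hh ≤ (m : ℝ) / 10000000 := by
  unfold hh
  rcases lt_or_gt_of_ne h with h | h
  · left
    have : (m : ℝ) + 1 ≤ m' := by exact_mod_cast h
    rw [← add_div, div_le_div_iff_of_pos_right (by norm_num)]
    exact this
  · right
    have : (m' : ℝ) + 1 ≤ m := by exact_mod_cast h
    rw [← add_div, div_le_div_iff_of_pos_right (by norm_num)]
    exact this

/-- products of the period with integers -/
theorem kk (k k' : ℤ) : (k ≤ k' ∧ 4 * kap * k ≤ 4 * kap * k') ∨
    (k' + 1 ≤ k ∧ 4 * kap * k' + 4 * kap ≤ 4 * kap * k) := by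
  have h0 := kap_nonneg
  rcases le_or_gt k k' with h | h
  · left
    refine ⟨h, ?_⟩
    have : (k : ℝ) ≤ k' := by exact_mod_cast h
    nlinarith
  · right
    refine ⟨h, ?_⟩
    have : (k' : ℝ) + 1 ≤ k := by exact_mod_cast h
    nlinarith

theorem sq_ge_of_abs (x r : ℝ) (hr : 0 ≤ r) (h : r ≤ |x|) : r ^ 2 ≤ x ^ 2 := by
  rw [← sq_abs x]
  exact pow_le_pow_left₀ hr h 2

theorem int_sep (i i' : ℤ) (h : i ≠ i') : 1 ≤ |(i : ℝ) - i'| := by
  have h1 : 1 ≤ |i - i'| := Int.one_le_abs (sub_ne_zero.mpr h)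
  exact_mod_cast h1

theorem odd_sep (i i' : ℤ) : 1 ≤ |(2 * i : ℝ) - (2 * i' + 1)| := by
  have h1 : 1 ≤ |2 * i - (2 * i' + 1)| := Int.one_le_abs (by omega)
  exact_mod_cast h1

theorem d00 (k m i k' m' i' : ℤ) (h : ¬ (k = k' ∧ m = m' ∧ i = i')) :
    Disjoint (interior (coin 0 k m i)) (interior (coin 0 k' m' i')) := by
  apply disj_YY
  by_cases hm : m = m'
  · subst hm
    right; right
    have k0 := kap_ge
    by_cases hk : k = k'
    · subst hk
      have hi : i ≠ i' := fun h' => h ⟨rfl, rfl, h'⟩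
      have := sq_ge_of_abs _ 1 (by norm_num) (int_sep i i' hi)
      nlinarith
    · have h1 := sq_ge_of_abs _ 1 (by norm_num) (int_sep k k' hk)
      have e : (4 * kap * k - A m - (4 * kap * k' - A m)) ^ 2 = 16 * kap ^ 2 * ((k : ℝ) - k') ^ 2 := by ring
      rw [e]
      have := kap_sq_ge
      nlinarith [sq_nonneg ((2 : ℝ) * i - 2 * i')]
  · rcases cell_sep m m' hm with h' | h'
    · exact Or.inl h'
    · exact Or.inr (Or.inl h')

theorem d11 (k m i k' m' i' : ℤ) (h : ¬ (k = k' ∧ m = m' ∧ i = i')) :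
    Disjoint (interior (coin 1 k m i)) (interior (coin 1 k' m' i')) := by
  apply disj_XX
  by_cases hm : m = m'
  · subst hm
    right; right
    have k0 := kap_ge
    by_cases hk : k = k'
    · subst hk
      have hi : i ≠ i' := fun h' => h ⟨rfl, rfl, h'⟩
      have := sq_ge_of_abs _ 1 (by norm_num) (int_sep i i' hi)
      nlinarith
    · have h1 := sq_ge_of_abs _ 1 (by norm_num) (int_sep k k' hk)
      have e : (4 * kap * k + A m - (4 * kap * k' + A m)) ^ 2 = 16 * kap ^ 2 * ((k : ℝ) - k') ^ 2 := by ring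
      rw [e]
      have := kap_sq_ge
      nlinarith [sq_nonneg ((2 : ℝ) * i - 2 * i')]
  · rcases cell_sep m m' hm with h' | h'
    · exact Or.inl h'
    · exact Or.inr (Or.inl h')

theorem d33 (k m i k' m' i' : ℤ) (h : ¬ (k = k' ∧ m = m' ∧ i = i')) :
    Disjoint (interior (coin 3 k m i)) (interior (coin 3 k' m' i')) := by
  apply disj_XX
  by_cases hm : m = m'
  · subst hm
    right; right
    have k0 := kap_ge
    by_cases hk : k = k'
    · subst hk
      have hi : i ≠ i' := fun h' => h ⟨rfl, rfl, h'⟩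
      have := sq_ge_of_abs _ 1 (by norm_num) (int_sep i i' hi)
      nlinarith
    · have h1 := sq_ge_of_abs _ 1 (by norm_num) (int_sep k k' hk)
      have e : (4 * kap * k + 3 * kap - A m - (4 * kap * k' + 3 * kap - A m)) ^ 2 =
        16 * kap ^ 2 * ((k : ℝ) - k') ^ 2 := by ring
      rw [e]
      have := kap_sq_ge
      nlinarith [sq_nonneg ((2 : ℝ) * i + 1 - (2 * i' + 1))]
  · rcases cell_sep m m' hm with h' | h'
    · exact Or.inl h'
    · exact Or.inr (Or.inl h')

theorem d01 (k m i k' m' i' : ℤ) :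
    Disjoint (interior (coin 0 k m i)) (interior (coin 1 k' m' i')) := by
  apply disj_YX _ _ _ _ _ _ _ _ (A m') (A m) (A_nonneg _) (A_nonneg _)
    (fun x h1 h2 => cellA m' i x h1 h2) (fun y h1 h2 => cellA m i' y h1 h2)
  have a1 := A_le m
  have a2 := A_le m'
  have a3 := A_nonneg m
  have a4 := A_nonneg m'
  have k0 := kap_ge
  rcases kk k k' with ⟨_, h⟩ | ⟨_, h⟩
  · have := neg_le_abs (4 * kap * k - A m - (4 * kap * k' + A m'))
    linarith
  · have := le_abs_self (4 * kap * k - A m - (4 * kap * k' + A m'))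
    linarith

theorem d03 (k m i k' m' i' : ℤ) :
    Disjoint (interior (coin 0 k m i)) (interior (coin 3 k' m' i')) := by
  apply disj_YX _ _ _ _ _ _ _ _ (A m') (B m) (A_nonneg _) (B_nonneg _)
    (fun x h1 h2 => cellA m' i x h1 h2) (fun y h1 h2 => cellB m i' y h1 h2)
  have a1 := A_le m
  have a2 := A_le m'
  have a3 := A_nonneg m
  have a4 := A_nonneg m'
  have b1 := B_le m
  have b3 := B_nonneg m
  have ab := AB_le m
  have k0 := kap_ge
  rcases kk k k' with ⟨_, h⟩ | ⟨_, h⟩
  · have := neg_le_abs (4 * kap * k - A m - (4 * kap * k' + 3 * kap - A m'))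
    linarith
  · have := le_abs_self (4 * kap * k - A m - (4 * kap * k' + 3 * kap - A m'))
    linarith

theorem d21 (k m i k' m' i' : ℤ) :
    Disjoint (interior (coin 2 k m i)) (interior (coin 1 k' m' i')) := by
  obtain ⟨U, hU0, hU1, hU, h5, h6⟩ := third m i m'
  apply disj_YX _ _ _ _ _ _ _ _ U (A m) hU0 (A_nonneg _)
    hU (fun y h1 h2 => cellA m i' y h1 h2)
  have a1 := A_le m
  have a2 := A_le m'
  have a3 := A_nonneg m
  have a4 := A_nonneg m'
  have b3 := B_nonneg m
  have k0 := kap_ge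
  rcases kk k' k with ⟨_, h⟩ | ⟨_, h⟩
  · have := le_abs_self (4 * kap * k + bz m i - (4 * kap * k' + A m'))
    linarith
  · have := neg_le_abs (4 * kap * k + bz m i - (4 * kap * k' + A m'))
    linarith

theorem d23 (k m i k' m' i' : ℤ) :
    Disjoint (interior (coin 2 k m i)) (interior (coin 3 k' m' i')) := by
  obtain ⟨U, hU0, hU1, hU, h5, h6⟩ := third m i m'
  apply disj_YX _ _ _ _ _ _ _ _ U (B m) hU0 (B_nonneg _)
    hU (fun y h1 h2 => cellB m i' y h1 h2)
  have a1 := A_le m
  have a2 := A_le m'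
  have a3 := A_nonneg m
  have a4 := A_nonneg m'
  have b3 := B_nonneg m
  have b4 := B_le m
  have k0 := kap_ge
  rcases kk k k' with ⟨_, h⟩ | ⟨_, h⟩
  · have := neg_le_abs (4 * kap * k + bz m i - (4 * kap * k' + 3 * kap - A m'))
    linarith
  · have := le_abs_self (4 * kap * k + bz m i - (4 * kap * k' + 3 * kap - A m'))
    linarith

theorem d02 (k m i k' m' i' : ℤ) :
    Disjoint (interior (coin 0 k m i)) (interior (coin 2 k' m' i')) := by
  apply disj_YY
  by_cases hm : m = m'
  · subst hm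
    right; right
    have a1 := A_le m
    have a3 := A_nonneg m
    have k0 := kap_ge
    have k1 := kap_sq_ge
    have hb : bz m i' ≤ 3 * kap := by
      obtain ⟨U, hU0, hU1, hU, h5, h6⟩ := third m i' 0
      have := A_nonneg 0
      have := B_nonneg m
      linarith
    rcases kk k k' with ⟨_, h⟩ | ⟨_, h⟩
    · by_cases hs : spec m
      · have h1 : 2 ≤ (4 * kap * k' + bz m i') - (4 * kap * k - A m) := by
          unfold bz
          rw [if_pos hs]
          split_ifs <;> linarith
        nlinarith [sq_nonneg (2 * (i : ℝ) - bx m i')]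
      · have h1 : kap ≤ (4 * kap * k' + bz m i') - (4 * kap * k - A m) := by
          unfold bz
          rw [if_neg hs]
          linarith
        have h2 : 1 ≤ (2 * (i : ℝ) - bx m i') ^ 2 := by
          have := sq_ge_of_abs _ 1 (by norm_num) (odd_sep i i')
          unfold bx
          rw [if_neg hs]
          linarith
        nlinarith
    · have h3 : kap - 1 ≤ (4 * kap * k - A m) - (4 * kap * k' + bz m i') := by linarith
      by_cases hs : spec m
      · have h1 : 2 ≤ (4 * kap * k - A m) - (4 * kap * k' + bz m i') := by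
          unfold bz
          rw [if_pos hs]
          split_ifs <;> linarith
        nlinarith [sq_nonneg (2 * (i : ℝ) - bx m i')]
      · have h1 : 2 ≤ (4 * kap * k - A m) - (4 * kap * k' + bz m i') := by
          unfold bz
          rw [if_neg hs]
          linarith
        nlinarith [sq_nonneg (2 * (i : ℝ) - bx m i')]
  · rcases cell_sep m m' hm with h' | h'
    · exact Or.inl h'
    · exact Or.inr (Or.inl h')

theorem d13 (k m i k' m' i' : ℤ) :
    Disjoint (interior (coin 1 k m i)) (interior (coin 3 k' m' i')) := by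
  apply disj_XX
  by_cases hm : m = m'
  · subst hm
    right; right
    have a1 := A_le m
    have a3 := A_nonneg m
    have k0 := kap_ge
    have k1 := kap_sq_ge
    rcases kk k k' with ⟨_, h⟩ | ⟨_, h⟩
    · have h1 : 2 ≤ (4 * kap * k' + 3 * kap - A m) - (4 * kap * k + A m) := by linarith
      nlinarith [sq_nonneg (2 * (i : ℝ) - (2 * i' + 1))]
    · have h1 : kap ≤ (4 * kap * k + A m) - (4 * kap * k' + 3 * kap - A m) := by linarith
      have h2 := sq_ge_of_abs _ 1 (by norm_num) (odd_sep i i')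
      nlinarith
  · rcases cell_sep m m' hm with h' | h'
    · exact Or.inl h'
    · exact Or.inr (Or.inl h')

theorem d22 (k m i k' m' i' : ℤ) (h : ¬ (k = k' ∧ m = m' ∧ i = i')) :
    Disjoint (interior (coin 2 k m i)) (interior (coin 2 k' m' i')) := by
  apply disj_YY
  by_cases hm : m = m'
  · subst hm
    right; right
    have k0 := kap_ge
    by_cases hs : spec m
    · by_cases hk : k = k'
      · subst hk
        have hi : i ≠ i' := fun h' => h ⟨rfl, rfl, h'⟩
        unfold bx bz
        simp only [if_pos hs]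
        have e1 := int_sep i i' hi
        by_cases hi2 : |i - i'| = 1
        · have hpar : (Even i ∧ ¬ Even i') ∨ (¬ Even i ∧ Even i') := by
            have h9 : i - i' = 1 ∨ i - i' = -1 := by
              rcases abs_cases (i - i') with ⟨h9, _⟩ | ⟨h9, _⟩ <;> omega
            rw [Int.even_iff, Int.even_iff]
            omega
          have e2 := sq_ge_of_abs _ 1 (by norm_num) e1
          rcases hpar with ⟨p1, p2⟩ | ⟨p1, p2⟩
          · rw [if_pos p1, if_neg p2]
            nlinarith
          · rw [if_neg p1, if_pos p2]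
            nlinarith
        · have h2 : 2 ≤ |i - i'| := by
            have : 1 ≤ |i - i'| := Int.one_le_abs (sub_ne_zero.mpr hi)
            omega
          have h3 : (2 : ℝ) ≤ |(i : ℝ) - i'| := by exact_mod_cast h2
          have e2 := sq_ge_of_abs _ 2 (by norm_num) h3
          nlinarith [sq_nonneg (4 * kap * k + (2 + A m + if Even i then (0 : ℝ) else 0.1) -
            (4 * kap * k + (2 + A m + if Even i' then (0 : ℝ) else 0.1)))]
      · unfold bx bz
        simp only [if_pos hs]
        have h1 := int_sep k k' hk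
        have h5 : 4 * kap ≤ |4 * kap * k - 4 * kap * k'| := by
          have : 4 * kap * k - 4 * kap * k' = (4 * kap) * ((k : ℝ) - k') := by ring
          rw [this, abs_mul, abs_of_nonneg (by linarith : 0 ≤ 4 * kap)]
          nlinarith
        have h6 : 2 ≤ |4 * kap * k + (2 + A m + if Even i then (0 : ℝ) else 0.1) -
            (4 * kap * k' + (2 + A m + if Even i' then (0 : ℝ) else 0.1))| := by
          rcases abs_cases (4 * kap * k - 4 * kap * k') with ⟨h7, _⟩ | ⟨h7, _⟩
          · rw [h7] at h5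
            refine le_trans ?_ (le_abs_self _)
            split_ifs <;> linarith
          · rw [h7] at h5
            refine le_trans ?_ (neg_le_abs _)
            split_ifs <;> linarith
        have h8 := sq_ge_of_abs _ 2 (by norm_num) h6
        nlinarith [sq_nonneg (1.998 * (i : ℝ) - 1.998 * i')]
    · unfold bx bz
      simp only [if_neg hs]
      by_cases hk : k = k'
      · subst hk
        have hi : i ≠ i' := fun h' => h ⟨rfl, rfl, h'⟩
        have := sq_ge_of_abs _ 1 (by norm_num) (int_sep i i' hi)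
        nlinarith
      · have h1 := sq_ge_of_abs _ 1 (by norm_num) (int_sep k k' hk)
        have e : (4 * kap * k + (kap + A m) - (4 * kap * k' + (kap + A m))) ^ 2 =
          16 * kap ^ 2 * ((k : ℝ) - k') ^ 2 := by ring
        rw [e]
        have := kap_sq_ge
        nlinarith [sq_nonneg ((2 : ℝ) * i + 1 - (2 * i' + 1))]
  · rcases cell_sep m m' hm with h' | h'
    · exact Or.inl h'
    · exact Or.inr (Or.inl h')

/-- all coins have pairwise disjoint interiors -/
theorem coin_disj (t t' : Fin 4) (k m i k' m' i' : ℤ)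
    (h : ¬ (t = t' ∧ k = k' ∧ m = m' ∧ i = i')) :
    Disjoint (interior (coin t k m i)) (interior (coin t' k' m' i')) := by
  fin_cases t <;> fin_cases t'
  · exact d00 _ _ _ _ _ _ (by simpa using h)
  · exact d01 _ _ _ _ _ _
  · exact d02 _ _ _ _ _ _
  · exact d03 _ _ _ _ _ _
  · exact (d01 _ _ _ _ _ _).symm
  · exact d11 _ _ _ _ _ _ (by simpa using h)
  · exact (d21 _ _ _ _ _ _).symm
  · exact d13 _ _ _ _ _ _
  · exact (d02 _ _ _ _ _ _).symm
  · exact d21 _ _ _ _ _ _
  · exact d22 _ _ _ _ _ _ (by simpa using h)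
  · exact d23 _ _ _ _ _ _
  · exact (d03 _ _ _ _ _ _).symm
  · exact (d13 _ _ _ _ _ _).symm
  · exact (d23 _ _ _ _ _ _).symm
  · exact d33 _ _ _ _ _ _ (by simpa using h)

end Pool.Agent.TH374.Coin
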