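import Pool.Agent.TH374.Coin.Shape

/-!
Disjointness criteria for coins.
-/

set_option autoImplicit false

open MeasureTheory Metric Set Filter
open scoped ENNReal

namespace Pool.Agent.TH374.Coin

theorem push (S : Set E3) (p : E3) (hp : p ∈ interior S) (v : E3) : ∃ t : ℝ, 0 < t ∧ p + t • v ∈ S := by
  have hc : Continuous (fun t : ℝ => p + t • v) := by fun_prop
  have ho : IsOpen ((fun t : ℝ => p + t • v) ⁻¹' interior S) := isOpen_interior.preimage hc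
  have h0 : (0 : ℝ) ∈ (fun t : ℝ => p + t • v) ⁻¹' interior S := by
    simpa using hp
  obtain ⟨ε, hε, hb⟩ := Metric.isOpen_iff.mp ho 0 h0
  refine ⟨ε / 2, by positivity, ?_⟩
  have : ε / 2 ∈ ball (0 : ℝ) ε := by
    rw [mem_ball_zero_iff, Real.norm_eq_abs, abs_of_pos (by positivity)]
    linarith
  exact interior_subset (hb this)

theorem int_coinY (y0 h a c : ℝ) (p : E3) (hp : p ∈ interior (coinY y0 h a c)) :
    (p 0 - a) ^ 2 + (p 2 - c) ^ 2 < 1 ∧ y0 < p 1 ∧ p 1 < y0 + h := by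
  obtain ⟨h1, h2, h3⟩ := interior_subset hp
  refine ⟨?_, ?_, ?_⟩
  · obtain ⟨t, ht, hq⟩ := push _ p hp !₂[p 0 - a, 0, p 2 - c]
    have h4 := hq.1
    simp at h4
    by_contra hcon
    have h5 : (p 0 - a) ^ 2 + (p 2 - c) ^ 2 = 1 := le_antisymm h1 (not_lt.mp hcon)
    have h6 : (1 + t) ^ 2 * ((p 0 - a) ^ 2 + (p 2 - c) ^ 2) ≤ 1 := by
      have e : (1 + t) ^ 2 * ((p 0 - a) ^ 2 + (p 2 - c) ^ 2) =
        (p 0 + t * (p 0 - a) - a) ^ 2 + (p 2 + t * (p 2 - c) - c) ^ 2 := by ring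
      rw [e]; exact h4
    rw [h5] at h6
    nlinarith
  · obtain ⟨t, ht, hq⟩ := push _ p hp !₂[0, -1, 0]
    have h4 := hq.2.1
    simp at h4
    linarith
  · obtain ⟨t, ht, hq⟩ := push _ p hp !₂[0, 1, 0]
    have h4 := hq.2.2
    simp at h4
    linarith

theorem int_coinX (x0 h b c : ℝ) (p : E3) (hp : p ∈ interior (coinX x0 h b c)) :
    (p 1 - b) ^ 2 + (p 2 - c) ^ 2 < 1 ∧ x0 < p 0 ∧ p 0 < x0 + h := by
  obtain ⟨h1, h2, h3⟩ := interior_subset hp
  refine ⟨?_, ?_, ?_⟩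
  · obtain ⟨t, ht, hq⟩ := push _ p hp !₂[0, p 1 - b, p 2 - c]
    have h4 := hq.1
    simp at h4
    by_contra hcon
    have h5 : (p 1 - b) ^ 2 + (p 2 - c) ^ 2 = 1 := le_antisymm h1 (not_lt.mp hcon)
    have h6 : (1 + t) ^ 2 * ((p 1 - b) ^ 2 + (p 2 - c) ^ 2) ≤ 1 := by
      have e : (1 + t) ^ 2 * ((p 1 - b) ^ 2 + (p 2 - c) ^ 2) =
        (p 1 + t * (p 1 - b) - b) ^ 2 + (p 2 + t * (p 2 - c) - c) ^ 2 := by ring
      rw [e]; exact h4
    rw [h5] at h6
    nlinarith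
  · obtain ⟨t, ht, hq⟩ := push _ p hp !₂[-1, 0, 0]
    have h4 := hq.2.1
    simp at h4
    linarith
  · obtain ⟨t, ht, hq⟩ := push _ p hp !₂[1, 0, 0]
    have h4 := hq.2.2
    simp at h4
    linarith

theorem disj_YX (y0 h a c x0 h' b c' U V : ℝ) (hU0 : 0 ≤ U) (hV0 : 0 ≤ V)
    (hU : ∀ x, x0 ≤ x → x ≤ x0 + h' → 1 - (x - a) ^ 2 ≤ U ^ 2)
    (hV : ∀ y, y0 ≤ y → y ≤ y0 + h → 1 - (y - b) ^ 2 ≤ V ^ 2)
    (hc : U + V ≤ |c - c'|) :
    Disjoint (interior (coinY y0 h a c)) (interior (coinX x0 h' b c')) := by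
  rw [Set.disjoint_left]
  intro p hp hq
  obtain ⟨h1, h2, h3⟩ := int_coinY _ _ _ _ _ hp
  obtain ⟨k1, k2, k3⟩ := int_coinX _ _ _ _ _ hq
  have e1 := hU (p 0) k2.le k3.le
  have e2 := hV (p 1) h2.le h3.le
  have e3 : |p 2 - c| < U := abs_lt_of_sq_lt_sq (by linarith) hU0
  have e4 : |p 2 - c'| < V := abs_lt_of_sq_lt_sq (by linarith) hV0
  have e5 : |c - c'| ≤ |p 2 - c| + |p 2 - c'| := by
    have := abs_sub_abs_le_abs_sub (p 2 - c') (p 2 - c)
    calc |c - c'| = |(p 2 - c') - (p 2 - c)| := by congr 1; ring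
      _ ≤ |p 2 - c'| + |p 2 - c| := abs_sub _ _
      _ = _ := add_comm _ _
  linarith

theorem disj_YY (y0 h a c y0' a' c' : ℝ) (hh : y0 + h ≤ y0' ∨ y0' + h ≤ y0 ∨
    4 ≤ (a - a') ^ 2 + (c - c') ^ 2) :
    Disjoint (interior (coinY y0 h a c)) (interior (coinY y0' h a' c')) := by
  rw [Set.disjoint_left]
  intro p hp hq
  obtain ⟨h1, h2, h3⟩ := int_coinY _ _ _ _ _ hp
  obtain ⟨k1, k2, k3⟩ := int_coinY _ _ _ _ _ hq
  rcases hh with hh | hh | hh
  · linarith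
  · linarith
  · nlinarith [sq_nonneg ((p 0 - a) + (p 0 - a')), sq_nonneg ((p 2 - c) + (p 2 - c'))]

theorem disj_XX (y0 h a c y0' a' c' : ℝ) (hh : y0 + h ≤ y0' ∨ y0' + h ≤ y0 ∨
    4 ≤ (a - a') ^ 2 + (c - c') ^ 2) :
    Disjoint (interior (coinX y0 h a c)) (interior (coinX y0' h a' c')) := by
  rw [Set.disjoint_left]
  intro p hp hq
  obtain ⟨h1, h2, h3⟩ := int_coinX _ _ _ _ _ hp
  obtain ⟨k1, k2, k3⟩ := int_coinX _ _ _ _ _ hq
  rcases hh with hh | hh | hh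
  · linarith
  · linarith
  · nlinarith [sq_nonneg ((p 1 - a) + (p 1 - a')), sq_nonneg ((p 2 - c) + (p 2 - c'))]

theorem convex_cyl (h : ℝ) : Convex ℝ (cyl h) := by
  intro p hp q hq a b ha hb hab
  obtain ⟨h1, h2, h3⟩ := hp
  obtain ⟨k1, k2, k3⟩ := hq
  have hb' : b = 1 - a := by linarith
  subst hb'
  refine ⟨?_, ?_, ?_⟩
  · simp only [PiLp.add_apply, PiLp.smul_apply, smul_eq_mul]
    nlinarith [mul_nonneg ha hb, sq_nonneg (p 0 - q 0), sq_nonneg (p 1 - q 1),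
      mul_nonneg (mul_nonneg ha hb) (sq_nonneg (p 0 - q 0)),
      mul_nonneg (mul_nonneg ha hb) (sq_nonneg (p 1 - q 1))]
  · simp only [PiLp.add_apply, PiLp.smul_apply, smul_eq_mul]
    nlinarith
  · simp only [PiLp.add_apply, PiLp.smul_apply, smul_eq_mul]
    nlinarith

theorem convex_pre (σ : Equiv.Perm (Fin 3)) (v : E3) (S : Set E3) (hS : Convex ℝ S) :
    Convex ℝ ((fun p : E3 => (perm σ).symm (p - v)) ⁻¹' S) := by
  intro p hp q hq a b ha hb hab
  simp only [mem_preimage] at *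
  have e : a • p + b • q - v = a • (p - v) + b • (q - v) := by
    rw [smul_sub, smul_sub]
    have : v = a • v + b • v := by rw [← add_smul, hab, one_smul]
    nth_rewrite 1 [this]
    abel
  rw [e, map_add, map_smul, map_smul]
  exact hS hp hq ha hb hab

theorem convex_coinY (y0 h a c : ℝ) : Convex ℝ (coinY y0 h a c) := by
  rw [coinY_eq]; exact convex_pre _ _ _ (convex_cyl h)

theorem convex_coinX (y0 h a c : ℝ) : Convex ℝ (coinX y0 h a c) := by
  rw [coinX_eq]; exact convex_pre _ _ _ (convex_cyl h)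

theorem aedisjoint_of {A B : Set E3} (hA : Convex ℝ A) (hB : Convex ℝ B) (cA : IsClosed A)
    (cB : IsClosed B) (h : Disjoint (interior A) (interior B)) : AEDisjoint volume A B := by
  have h1 : A ∩ B ⊆ frontier A ∪ frontier B := by
    rintro x ⟨hxA, hxB⟩
    by_contra hcon
    rw [mem_union, not_or] at hcon
    have i1 : x ∈ interior A := by
      by_contra hx
      exact hcon.1 ⟨subset_closure hxA, hx⟩
    have i2 : x ∈ interior B := by
      by_contra hx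
      exact hcon.2 ⟨subset_closure hxB, hx⟩
    exact Set.disjoint_left.mp h i1 i2
  have h2 : volume (frontier A ∪ frontier B) = 0 :=
    measure_union_null (hA.addHaar_frontier _) (hB.addHaar_frontier _)
  exact measure_mono_null h1 h2

end Pool.Agent.TH374.Coin
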