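import Mathlib

/-!
Flat circular cylinders (coins) in space: shape, isometries, volume.
-/

set_option autoImplicit false

open MeasureTheory Metric Set Filter
open scoped ENNReal

namespace Pool.Agent.TH374.Coin

/-- space -/
abbrev E3 := EuclideanSpace ℝ (Fin 3)

/-- the standard cylinder -/
def cyl (h : ℝ) : Set E3 := {p | p 0 ^ 2 + p 1 ^ 2 ≤ 1 ∧ 0 ≤ p 2 ∧ p 2 ≤ h}

/-- a coin perpendicular to the second axis -/
def coinY (y0 h a c : ℝ) : Set E3 :=
  {p | (p 0 - a) ^ 2 + (p 2 - c) ^ 2 ≤ 1 ∧ y0 ≤ p 1 ∧ p 1 ≤ y0 + h}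

/-- a coin perpendicular to the first axis -/
def coinX (x0 h b c : ℝ) : Set E3 :=
  {p | (p 1 - b) ^ 2 + (p 2 - c) ^ 2 ≤ 1 ∧ x0 ≤ p 0 ∧ p 0 ≤ x0 + h}

/-- a permutation of the coordinates as a linear isometry -/
noncomputable def perm (σ : Equiv.Perm (Fin 3)) : E3 ≃ₗᵢ[ℝ] E3 :=
  LinearIsometryEquiv.piLpCongrLeft 2 ℝ ℝ σ

theorem perm_apply (σ : Equiv.Perm (Fin 3)) (v : E3) (i : Fin 3) :
    perm σ v i = v (σ.symm i) := rfl

theorem perm_symm_apply (σ : Equiv.Perm (Fin 3)) (v : E3) (i : Fin 3) :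
    (perm σ).symm v i = v (σ i) := by
  rw [perm, LinearIsometryEquiv.piLpCongrLeft_symm]
  rfl

theorem coinY_eq (y0 h a c : ℝ) :
    coinY y0 h a c = (fun p : E3 => (perm (Equiv.swap 1 2)).symm (p - !₂[a, y0, c])) ⁻¹' cyl h := by
  ext p
  simp only [coinY, cyl, mem_preimage, mem_ofPred_eq, perm_symm_apply]
  have h0 : (Equiv.swap (1 : Fin 3) 2) 0 = 0 := by decide
  have h1 : (Equiv.swap (1 : Fin 3) 2) 1 = 2 := by decide
  have h2 : (Equiv.swap (1 : Fin 3) 2) 2 = 1 := by decide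
  rw [h0, h1, h2]
  simp only [PiLp.sub_apply]
  simp
  intro _ _
  rw [add_comm h]

theorem coinX_eq (x0 h b c : ℝ) :
    coinX x0 h b c = (fun p : E3 => (perm (finRotate 3)).symm (p - !₂[x0, b, c])) ⁻¹' cyl h := by
  ext p
  simp only [coinX, cyl, mem_preimage, mem_ofPred_eq, perm_symm_apply]
  have h0 : (finRotate 3) 0 = 1 := by decide
  have h1 : (finRotate 3) 1 = 2 := by decide
  have h2 : (finRotate 3) 2 = 0 := by decide
  rw [h0, h1, h2]
  simp only [PiLp.sub_apply]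
  simp
  intro _ _
  rw [add_comm h]

/-- the isometry taking the standard cylinder to its copy -/
noncomputable def iso (σ : Equiv.Perm (Fin 3)) (v : E3) : E3 ≃ᵢ E3 :=
  (perm σ).toIsometryEquiv.trans (IsometryEquiv.addRight v)

theorem image_iso (σ : Equiv.Perm (Fin 3)) (v : E3) (S : Set E3) :
    iso σ v '' S = (fun p : E3 => (perm σ).symm (p - v)) ⁻¹' S := by
  ext p
  simp only [mem_image, mem_preimage]
  constructor
  · rintro ⟨q, hq, rfl⟩
    have : iso σ v q = perm σ q + v := rfl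
    rw [this, add_sub_cancel_right, LinearIsometryEquiv.symm_apply_apply]
    exact hq
  · intro hp
    refine ⟨_, hp, ?_⟩
    have : iso σ v ((perm σ).symm (p - v)) = perm σ ((perm σ).symm (p - v)) + v := rfl
    rw [this, LinearIsometryEquiv.apply_symm_apply, sub_add_cancel]

theorem coinY_iso (y0 h a c : ℝ) : ∃ f : E3 ≃ᵢ E3, coinY y0 h a c = f '' cyl h :=
  ⟨iso (Equiv.swap 1 2) !₂[a, y0, c], by rw [image_iso, coinY_eq]⟩

theorem coinX_iso (x0 h b c : ℝ) : ∃ f : E3 ≃ᵢ E3, coinX x0 h b c = f '' cyl h :=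
  ⟨iso (finRotate 3) !₂[x0, b, c], by rw [image_iso, coinX_eq]⟩

theorem isClosed_cyl (h : ℝ) : IsClosed (cyl h) := by
  have h1 : IsClosed {p : E3 | p 0 ^ 2 + p 1 ^ 2 ≤ 1} :=
    isClosed_le (by fun_prop) (by fun_prop)
  have h2 : IsClosed {p : E3 | 0 ≤ p 2} := isClosed_le (by fun_prop) (by fun_prop)
  have h3 : IsClosed {p : E3 | p 2 ≤ h} := isClosed_le (by fun_prop) (by fun_prop)
  exact h1.inter (h2.inter h3)

theorem isClosed_coinY (y0 h a c : ℝ) : IsClosed (coinY y0 h a c) := by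
  rw [coinY_eq]
  exact (isClosed_cyl h).preimage (by fun_prop)

theorem isClosed_coinX (y0 h a c : ℝ) : IsClosed (coinX y0 h a c) := by
  rw [coinX_eq]
  exact (isClosed_cyl h).preimage (by fun_prop)

theorem measurePreserving_pre (σ : Equiv.Perm (Fin 3)) (v : E3) :
    MeasurePreserving (fun p : E3 => (perm σ).symm (p - v)) volume volume :=
  (LinearIsometryEquiv.measurePreserving (perm σ).symm).comp (measurePreserving_sub_right volume v)

theorem volume_coinY (y0 h a c : ℝ) : volume (coinY y0 h a c) = volume (cyl h) := by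
  rw [coinY_eq]
  exact (measurePreserving_pre _ _).measure_preimage (isClosed_cyl h).measurableSet.nullMeasurableSet

theorem volume_coinX (y0 h a c : ℝ) : volume (coinX y0 h a c) = volume (cyl h) := by
  rw [coinX_eq]
  exact (measurePreserving_pre _ _).measure_preimage (isClosed_cyl h).measurableSet.nullMeasurableSet

theorem volume_disc : volume {q : Fin 2 → ℝ | q 0 ^ 2 + q 1 ^ 2 ≤ 1} = ENNReal.ofReal Real.pi := by
  have h1 := EuclideanSpace.volume_closedBall_fin_two 0 1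
  rw [ENNReal.ofReal_one, one_pow, one_mul] at h1
  rw [← h1]
  have h2 : (closedBall (0 : EuclideanSpace ℝ (Fin 2)) 1) =
      (MeasurableEquiv.toLp 2 (Fin 2 → ℝ)).symm ⁻¹' {q : Fin 2 → ℝ | q 0 ^ 2 + q 1 ^ 2 ≤ 1} := by
    ext p
    simp only [mem_closedBall_zero_iff, mem_preimage, mem_ofPred_eq]
    rw [EuclideanSpace.norm_eq, Real.sqrt_le_one]
    simp [Fin.sum_univ_two]
  rw [h2, (EuclideanSpace.volume_preserving_symm_measurableEquiv_toLp (Fin 2)).measure_preimage_equiv]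

theorem volume_cyl (h : ℝ) : volume (cyl h) = ENNReal.ofReal h * ENNReal.ofReal Real.pi := by
  have h1 : cyl h = (MeasurableEquiv.toLp 2 (Fin 3 → ℝ)).symm ⁻¹'
      ((MeasurableEquiv.piFinSuccAbove (fun _ : Fin 3 => ℝ) 2) ⁻¹'
        (Icc 0 h ×ˢ {q : Fin 2 → ℝ | q 0 ^ 2 + q 1 ^ 2 ≤ 1})) := by
    ext p
    simp only [cyl, mem_preimage, mem_ofPred_eq, mem_prod, mem_Icc]
    have e0 : Fin.succAbove (2 : Fin 3) (0 : Fin 2) = 0 := by decide
    have e1 : Fin.succAbove (2 : Fin 3) (1 : Fin 2) = 1 := by decide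
    simp only [MeasurableEquiv.piFinSuccAbove_apply, Fin.insertNthEquiv_symm_apply,
      Fin.removeNth, e0, e1]
    simp only [MeasurableEquiv.toLp, MeasurableEquiv.symm_mk, MeasurableEquiv.coe_mk,
      WithLp.equiv]
    constructor
    · rintro ⟨h1, h2, h3⟩; exact ⟨⟨h2, h3⟩, h1⟩
    · rintro ⟨⟨h2, h3⟩, h1⟩; exact ⟨h1, h2, h3⟩
  rw [h1, (EuclideanSpace.volume_preserving_symm_measurableEquiv_toLp (Fin 3)).measure_preimage_equiv,
    (volume_preserving_piFinSuccAbove (fun _ : Fin 3 => ℝ) 2).measure_preimage_equiv]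
  have h3 := Measure.prod_prod (μ := (volume : Measure ℝ)) (ν := (volume : Measure (Fin 2 → ℝ)))
    (Icc 0 h) {q : Fin 2 → ℝ | q 0 ^ 2 + q 1 ^ 2 ≤ 1}
  rw [volume_disc, Real.volume_Icc, sub_zero] at h3
  exact h3

end Pool.Agent.TH374.Coin
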